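import Pool.Agent.Helper3.FewP.Goals2

set_option autoImplicit false

namespace Pool.Agent.Helper36.FewP

open Pool.Agent.Helper3.FewP

theorem t : G_GEN → G_BLI → G_ECF → G_EVM → G_LIF → G_SPC → G_PSLZ → G_IND := by
  intro hGEN hBLI hECF hEVM hLIF hSPC hPSL σ κ ρ _ _ _ k N m p μ w ℓ lam i0 s0 hsurj hinj hmin
    hind t ht
  obtain ⟨K, hK1, hK2⟩ := hPSL ℚ (ℤ × (σ → ℤ))
  obtain ⟨f, hf⟩ := hGEN ℚ (PowerSeries (AddMonoidAlgebra ℚ (ℤ × (σ → ℤ)))) (ℤ × (ℤ × (σ → ℤ))) κ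
    (Fin N × Fin k) ρ K ℓ lam
    (fun y c => gent k c.2 ((c.1 : ℕ) : ℤ) (w (p y) ((c.1 : ℕ) : ℤ))
      (fun n => (n : ℚ) ^ ((μ y).1.1 : ℕ) * (((c.1 : ℕ) : ℤ) : ℚ) ^ ((μ y).1.2 : ℕ)))
    p i0
    (fun c => (ee k c.2 (s0 c), (-(((c.1 : ℕ) : ℤ) * s0 c),
      w (i0 c) ((c.1 : ℕ) : ℤ) ((c.2 : ℕ) + k * s0 c))))
    (fun y c => vec ℚ m (((c.1 : ℕ) : ℤ), ((c.2 : ℕ) : ℤ) + k * s0 c) (μ y)) (by
      rintro y c ⟨e, δ⟩ hne
      by_cases he : e < 0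
      · exact absurd (hK2 _ e δ he) hne
      · obtain ⟨n, rfl⟩ := Int.eq_ofNat_of_zero_le (not_lt.1 he)
        rw [hK1] at hne
        obtain ⟨s, hs, rfl⟩ := (hECF σ k c.2 ((c.1 : ℕ) : ℤ) (w (p y) ((c.1 : ℕ) : ℤ)) _
          c.2.isLt).1 n δ hne
        by_cases hc : p y = i0 c ∧ s = s0 c
        · left
          obtain ⟨h1, rfl⟩ := hc
          exact ⟨h1, by rw [← hs, h1]⟩
        · right
          have h2 := hmin c (p y) s (by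
            by_contra h3
            push Not at h3
            exact hc h3)
          unfold phi at h2
          rw [← hs]
          exact h2) (by
      intro y c hpc
      have h3 := (hECF σ k c.2 ((c.1 : ℕ) : ℤ) (w (p y) ((c.1 : ℕ) : ℤ))
        (fun n => (n : ℚ) ^ ((μ y).1.1 : ℕ) * (((c.1 : ℕ) : ℤ) : ℚ) ^ ((μ y).1.2 : ℕ))
          c.2.isLt)
      obtain ⟨n, hn⟩ := Int.eq_ofNat_of_zero_le (h3.2.2 (s0 c)).1
      have h4 := h3.2.1 (hinj _ _) n (s0 c) hn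
      have h5 := hK1 (gent k c.2 ((c.1 : ℕ) : ℤ) (w (p y) ((c.1 : ℕ) : ℤ))
        (fun n => (n : ℚ) ^ ((μ y).1.1 : ℕ) * (((c.1 : ℕ) : ℤ) : ℚ) ^ ((μ y).1.2 : ℕ))) n
        (-(((c.1 : ℕ) : ℤ) * s0 c), w (p y) ((c.1 : ℕ) : ℤ) ((c.2 : ℕ) + k * s0 c))
      rw [h4] at h5
      rw [← hpc]
      show K.cf _ (ee k c.2 (s0 c), _) = _
      rw [hn]
      exact h5)
    (hBLI ℚ κ (Fin N × Fin k) ρ m p μ i0
      (fun c => (((c.1 : ℕ) : ℤ), ((c.2 : ℕ) : ℤ) + k * s0 c)) hsurj hind)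
  obtain ⟨e, he⟩ : ∃ e, PowerSeries.coeff e (Matrix.of fun (x c : Fin N × Fin k) =>
      gent k c.2 ((c.1 : ℕ) : ℤ) (w (p (f x)) ((c.1 : ℕ) : ℤ))
      (fun n => (n : ℚ) ^ ((μ (f x)).1.1 : ℕ) * (((c.1 : ℕ) : ℤ) : ℚ) ^ ((μ (f x)).1.2 : ℕ))).det
        ≠ 0 := by
    by_contra h
    push Not at h
    apply hf
    ext1 n
    rw [h n]
    simp
  obtain ⟨pol, hpol, hx⟩ := hSPC σ t ht _ he
  refine ⟨pol, hpol, ?_⟩
  intro x hxp
  have h1 : evL t x (PowerSeries.coeff e (Matrix.of fun (x c : Fin N × Fin k) =>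
      gent k c.2 ((c.1 : ℕ) : ℤ) (w (p (f x)) ((c.1 : ℕ) : ℤ))
      (fun n => (n : ℚ) ^ ((μ (f x)).1.1 : ℕ) * (((c.1 : ℕ) : ℤ) : ℚ) ^ ((μ (f x)).1.2 : ℕ))).det)
        ≠ 0 := fun h => hxp (hx x h)
  apply hLIF EE ρ (Fin N × Fin k) _ f
  have h2 : (Matrix.of fun (x' c : Fin N × Fin k) => fam k N m p μ w t x c (f x')) =
      ((HahnSeries.ofPowerSeries ℤ ℂ).comp (PowerSeries.map
        (evL t x : AddMonoidAlgebra ℚ (ℤ × (σ → ℤ)) →+* ℂ))).mapMatrix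
        (Matrix.of fun (x c : Fin N × Fin k) =>
          gent k c.2 ((c.1 : ℕ) : ℤ) (w (p (f x)) ((c.1 : ℕ) : ℤ))
          (fun n => (n : ℚ) ^ ((μ (f x)).1.1 : ℕ) *
            (((c.1 : ℕ) : ℤ) : ℚ) ^ ((μ (f x)).1.2 : ℕ))) := by
    ext1 x' c
    simp only [RingHom.mapMatrix_apply, Matrix.map_apply, Matrix.of_apply, RingHom.comp_apply]
    rw [hEVM]
    unfold fam
    congr 2
    funext s n
    push_cast
    rfl
  rw [h2, ← RingHom.map_det, RingHom.comp_apply]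
  intro h3
  have h4 := HahnSeries.ofPowerSeries_injective (Γ := ℤ) (R := ℂ) (h3.trans (map_zero _).symm)
  apply h1
  have h5 := congrArg (PowerSeries.coeff e) h4
  rw [PowerSeries.coeff_map, map_zero] at h5
  exact h5

end Pool.Agent.Helper36.FewP
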